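import Pool.Agent.Q274.DC.Stm2

/-!
# Project DC, job FRO: the eigenvalues of Frobenius
-/

set_option autoImplicit false

open scoped Classical

namespace Pool.Agent.Q121.DC

open Pool.Agent.Q274.DC

theorem std_ne (p : ℕ) [Fact p.Prime] : (ZMod.stdAddChar (N := p)) ≠ 1 := by
  have h := ZMod.isPrimitive_stdAddChar p (one_ne_zero : (1 : ZMod p) ≠ 0)
  rwa [AddChar.mulShift_one] at h

theorem cube_one {k : Type} [Field k] {χ : MulChar k ℂ} (h3 : χ ^ 3 = 1) {x : k} (hx : x ≠ 0) :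
    χ x ^ 3 = 1 := by
  rw [← MulChar.pow_apply' χ (by norm_num : (3 : ℕ) ≠ 0), h3]
  exact MulChar.one_apply (IsUnit.mk0 x hx)

/-- the case `p = 1` modulo three -/
theorem case1 (hchi : S_CHI) (haff : S_AFF) (hlif : S_LIF) (p : ℕ) [Fact p.Prime] (hp : p % 3 = 1)
    (D : ZMod p) (hD : D ≠ 0) : ∃ α β : ℂ, α * β = p ∧
      ∀ (F : Type) [Field F] [Fintype F] [Algebra (ZMod p) F],
      (aff (algebraMap (ZMod p) F D) : ℂ) = (Fintype.card F : ℂ) -
        α ^ Module.finrank (ZMod p) F - β ^ Module.finrank (ZMod p) F := by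
  have hc : Fintype.card (ZMod p) = p := ZMod.card p
  obtain ⟨χ, h1, h3, hu⟩ := hchi (ZMod p) (by rw [hc]; exact hp)
  obtain ⟨ψ, hψ⟩ : ∃ ψ : AddChar (ZMod p) ℂ, ψ = ZMod.stdAddChar := ⟨_, rfl⟩
  have hψp : ψ.IsPrimitive := hψ ▸ ZMod.isPrimitive_stdAddChar p
  have hψ1 : ψ ≠ 1 := hψ ▸ std_ne p
  obtain ⟨hg, -⟩ := haff (ZMod p) χ ψ h1 h3 hu hψp
  have hp0 : (p : ℂ) ≠ 0 := by
    exact_mod_cast (Fact.out : p.Prime).ne_zero
  obtain ⟨g, hgd⟩ : ∃ g : ℂ, g = gaussSum χ ψ := ⟨_, rfl⟩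
  obtain ⟨g', hgd'⟩ : ∃ g : ℂ, g = gaussSum (χ ^ 2) ψ := ⟨_, rfl⟩
  obtain ⟨c, hcd⟩ : ∃ c : ℂ, c = χ D := ⟨_, rfl⟩
  have hc3 : c ^ 3 = 1 := hcd ▸ cube_one h3 hD
  rw [hc, ← hgd, ← hgd'] at hg
  refine ⟨-(c ^ 2 * g ^ 3) / p, -(c * g' ^ 3) / p, ?_, ?_⟩
  · have e : -(c ^ 2 * g ^ 3) / p * (-(c * g' ^ 3) / p) = c ^ 3 * (g * g') ^ 3 / (p : ℂ) ^ 2 := by
      field_simp
    rw [e, hc3, hg]
    field_simp
  · intro F _ _ _
    obtain ⟨e1, e2⟩ := hlif (ZMod p) χ ψ h1 h3 hψ1 F D hD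
    rw [hc] at e1
    rw [← hgd, ← hgd', ← hcd, e1] at e2
    have hq : ((p : ℂ) ^ Module.finrank (ZMod p) F) ≠ 0 := pow_ne_zero _ hp0
    rw [e1, div_pow, div_pow]
    field_simp
    linear_combination e2

/-- a subfield with `p ^ 2` elements -/
theorem sub2 (p : ℕ) [Fact p.Prime] (F : Type) [Field F] [Fintype F] [Algebra (ZMod p) F] (s : ℕ)
    (hs : Module.finrank (ZMod p) F = 2 * s) :
    ∃ (k : Type) (_ : Field k) (_ : Fintype k) (_ : Algebra (ZMod p) k) (_ : Algebra k F)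
      (_ : IsScalarTower (ZMod p) k F), Module.finrank (ZMod p) k = 2 ∧ Fintype.card k = p ^ 2 ∧
      Module.finrank k F = s := by
  have hfr : Module.finrank (ZMod p) (GaloisField p 2) = 2 := GaloisField.finrank p two_ne_zero
  obtain ⟨f⟩ := FiniteField.nonempty_algHom_of_finrank_dvd (F := ZMod p) (K := GaloisField p 2)
    (L := F) (by rw [hfr, hs]; exact dvd_mul_right 2 s)
  let _ : Algebra (GaloisField p 2) F := f.toRingHom.toAlgebra
  have : IsScalarTower (ZMod p) (GaloisField p 2) F :=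
    IsScalarTower.of_algebraMap_eq (fun x => (f.commutes x).symm)
  have : Fintype (GaloisField p 2) := Fintype.ofFinite _
  refine ⟨GaloisField p 2, inferInstance, inferInstance, inferInstance, inferInstance,
    inferInstance, hfr, ?_, ?_⟩
  · rw [← Nat.card_eq_fintype_card]
    exact GaloisField.card p 2 two_ne_zero
  · have h := Module.finrank_mul_finrank (ZMod p) (GaloisField p 2) F
    rw [hfr, hs] at h
    omega

/-- elements of the prime field are cubes -/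
theorem is_cube (p : ℕ) [Fact p.Prime] (hp : p % 3 = 2) (D : ZMod p) (hD : D ≠ 0) :
    ∃ E : ZMod p, E ≠ 0 ∧ E ^ 3 = D := by
  have h1 : D ^ (p - 1) = 1 := ZMod.pow_card_sub_one_eq_one hD
  have h2 : (2 * p - 1) / 3 * 3 = 2 * p - 1 := by omega
  refine ⟨D ^ ((2 * p - 1) / 3), pow_ne_zero _ hD, ?_⟩
  rw [← pow_mul, h2]
  have h3 : 2 * p - 1 = (p - 1) * 2 + 1 := by omega
  rw [h3, pow_succ, pow_mul, h1]
  simp

/-- the case `p = 2` modulo three, even degree -/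
theorem even_case (hchi : S_CHI) (hlif : S_LIF) (hsti : S_STI) (p : ℕ) [Fact p.Prime]
    (hp : p % 3 = 2) (D : ZMod p) (hD : D ≠ 0) (F : Type) [Field F] [Fintype F]
    [Algebra (ZMod p) F] (s : ℕ) (hs : Module.finrank (ZMod p) F = 2 * s) :
    (aff (algebraMap (ZMod p) F D) : ℂ) = (Fintype.card F : ℂ) - 2 * (-(p : ℂ)) ^ s := by
  obtain ⟨k, _, _, _, _, _, hk2, hkc, hks⟩ := sub2 p F s hs
  have hmod : Fintype.card k % 3 = 1 := by
    rw [hkc, pow_two, Nat.mul_mod, hp]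
  obtain ⟨χ, h1, h3, hu⟩ := hchi k hmod
  have hp0 : (p : ℂ) ≠ 0 := by
    exact_mod_cast (Fact.out : p.Prime).ne_zero
  obtain ⟨ψ₀, hψ₀⟩ : ∃ ψ : AddChar (ZMod p) ℂ, ψ = ZMod.stdAddChar := ⟨_, rfl⟩
  have hψ1 : ψ₀ ≠ 1 := hψ₀ ▸ std_ne p
  obtain ⟨ψ, hψ⟩ : ∃ ψ : AddChar k ℂ, ∀ x, ψ x = ψ₀ (Algebra.trace (ZMod p) k x) :=
    ⟨ψ₀.compAddMonoidHom (Algebra.trace (ZMod p) k).toAddMonoidHom, fun x => rfl⟩
  have hψne : ψ ≠ 1 := by
    intro h
    apply hψ1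
    have hsur := Algebra.trace_surjective (ZMod p) k
    ext y
    obtain ⟨x, hx⟩ := hsur y
    rw [← hx, ← hψ x, h]
    simp
  have hχ2 : χ ^ 2 ≠ 1 := by
    intro h
    apply h1
    have : χ ^ 3 = χ ^ 2 * χ := pow_succ χ 2
    rw [h3, h, one_mul] at this
    exact this.symm
  have hχ23 : (χ ^ 2) ^ 3 = 1 := by
    rw [← pow_mul, mul_comm, pow_mul, h3, one_pow]
  have g1 : gaussSum χ ψ = p := by
    have h := hsti p hp k hk2 χ ψ₀ h1 h3 hψ1
    rw [← h]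
    unfold gaussSum
    exact Finset.sum_congr rfl (fun x _ => by rw [hψ x])
  have g2 : gaussSum (χ ^ 2) ψ = p := by
    have h := hsti p hp k hk2 (χ ^ 2) ψ₀ hχ2 hχ23 hψ1
    rw [← h]
    unfold gaussSum
    exact Finset.sum_congr rfl (fun x _ => by rw [hψ x])
  have hDk : algebraMap (ZMod p) k D ≠ 0 := by
    rw [Ne, map_eq_zero_iff _ (algebraMap (ZMod p) k).injective]
    exact hD
  have hχD : χ (algebraMap (ZMod p) k D) = 1 := by
    obtain ⟨E, hE0, hE⟩ := is_cube p hp D hD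
    have hEk : algebraMap (ZMod p) k E ≠ 0 := by
      rw [Ne, map_eq_zero_iff _ (algebraMap (ZMod p) k).injective]
      exact hE0
    rw [← hE, map_pow, map_pow]
    exact cube_one h3 hEk
  obtain ⟨e1, e2⟩ := hlif k χ ψ h1 h3 hψne F (algebraMap (ZMod p) k D) hDk
  rw [← IsScalarTower.algebraMap_apply, g1, g2, hχD, hks] at e2
  rw [hkc, hks] at e1
  have hq : ((p : ℂ) ^ 2) ^ s ≠ 0 := pow_ne_zero _ (pow_ne_zero _ hp0)
  have e1' : (Fintype.card F : ℂ) = ((p : ℂ) ^ 2) ^ s := by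
    rw [e1]
    push_cast
    ring
  rw [e1'] at e2 ⊢
  have e3 : (-((1 : ℂ) ^ 2 * (p : ℂ) ^ 3)) ^ s = ((p : ℂ) ^ 2) ^ s * (-(p : ℂ)) ^ s := by
    rw [← mul_pow]
    congr 1
    ring
  have e4 : (-((1 : ℂ) * (p : ℂ) ^ 3)) ^ s = ((p : ℂ) ^ 2) ^ s * (-(p : ℂ)) ^ s := by
    rw [← mul_pow]
    congr 1
    ring
  rw [e3, e4] at e2
  have e5 : ((p : ℂ) ^ 2) ^ s * ((aff (algebraMap (ZMod p) F D) : ℂ) - ((p : ℂ) ^ 2) ^ s +
      2 * (-(p : ℂ)) ^ s) = 0 := by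
    linear_combination e2
  have e6 := (mul_eq_zero.1 e5).resolve_left hq
  linear_combination e6

theorem fro : S_ONE → S_CHI → S_AFF → S_LIF → S_STI → S_FRO := by
  intro hone hchi haff hlif hsti p _ hp3 D hD
  have hpp : p.Prime := Fact.out
  have hmod : p % 3 = 1 ∨ p % 3 = 2 := by
    have h0 : p % 3 ≠ 0 := by
      intro h
      have h3 : 3 ∣ p := Nat.dvd_of_mod_eq_zero h
      exact hp3 ((Nat.prime_dvd_prime_iff_eq Nat.prime_three hpp).1 h3).symm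
    omega
  rcases hmod with h | h
  · exact case1 hchi haff hlif p h D hD
  · obtain ⟨r0, hr0⟩ : ∃ r : ℂ, r ^ 2 = p := ⟨((Real.sqrt p : ℝ) : ℂ), by
      rw [← Complex.ofReal_pow, Real.sq_sqrt (Nat.cast_nonneg p)]
      simp⟩
    refine ⟨Complex.I * r0, -(Complex.I * r0), ?_, ?_⟩
    · have hI := Complex.I_sq
      linear_combination (-(r0 ^ 2)) * hI + hr0
    · intro F _ _ _
      have hsq : (Complex.I * r0) ^ 2 = -(p : ℂ) := by
        rw [mul_pow, Complex.I_sq, hr0]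
        ring
      rcases Nat.even_or_odd' (Module.finrank (ZMod p) F) with ⟨s, hs | hs⟩
      · rw [even_case hchi hlif hsti p h D hD F s hs, hs, pow_mul, pow_mul, neg_sq, hsq]
        ring
      · have hcard : Fintype.card F = p ^ (2 * s + 1) := by
          rw [← hs, Module.card_eq_pow_finrank (K := ZMod p) (V := F), ZMod.card]
        have hne : Fintype.card F % 3 ≠ 1 := by
          rw [hcard, Nat.pow_mod, h, pow_succ, pow_mul, Nat.mul_mod, Nat.pow_mod]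
          norm_num
        have h2 := (hone F 0 hne (fun _ => 1) (fun _ => one_ne_zero)).2
          (algebraMap (ZMod p) F D)
        rw [h2, hs, Odd.neg_pow ⟨s, rfl⟩]
        push_cast
        ring

end Pool.Agent.Q121.DC
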